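import Pool.Agent.H25.FP.Free

/-!
# H25/GP/Gp: graph products of groups, holonomy
-/

set_option autoImplicit false

namespace Pool.Agent.H25.GP

open Pool.Agent.H25.WP Pool.Agent.H25.FP

universe u w

/-- the commutators of the elements of adjacent vertex groups in the free product of all vertex groups -/
def comms {V : Type} (Γ : SimpleGraph V) (G : V → Type u) [∀ v, Group (G v)] : Set (Monoid.CoprodI G) :=
  {r | ∃ (v w : V) (g : G v) (h : G w), Γ.Adj v w ∧
    r = Monoid.CoprodI.of g * Monoid.CoprodI.of h * (Monoid.CoprodI.of g)⁻¹ * (Monoid.CoprodI.of h)⁻¹}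

/-- the graph product -/
abbrev Gp {V : Type} (Γ : SimpleGraph V) (G : V → Type u) [∀ v, Group (G v)] : Type u :=
  Monoid.CoprodI G ⧸ Subgroup.normalClosure (comms Γ G)

variable {V : Type} {Γ : SimpleGraph V} {G : V → Type u} [∀ v, Group (G v)]

/-- the vertex groups -/
def gof (Γ : SimpleGraph V) (v : V) : G v →* Gp Γ G := (QuotientGroup.mk' _).comp Monoid.CoprodI.of

theorem gof_comm {v w : V} (h : Γ.Adj v w) (a : G v) (b : G w) : Commute (gof Γ v a) (gof Γ w b) := by
  have h1 : Monoid.CoprodI.of a * Monoid.CoprodI.of b * (Monoid.CoprodI.of a)⁻¹ * (Monoid.CoprodI.of b)⁻¹ ∈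
      Subgroup.normalClosure (comms Γ G) := Subgroup.subset_normalClosure ⟨v, w, a, b, h, rfl⟩
  have h2 : gof Γ v a * gof Γ w b * (gof Γ v a)⁻¹ * (gof Γ w b)⁻¹ = 1 := by
    have h3 := (QuotientGroup.eq_one_iff (N := Subgroup.normalClosure (comms Γ G)) _).mpr h1
    exact h3
  have h3 : gof Γ v a * gof Γ w b * (gof Γ v a)⁻¹ = gof Γ w b := mul_inv_eq_one.mp h2
  exact mul_inv_eq_iff_eq_mul.mp h3

/-- homomorphisms of graph products -/
def glift {K : Type w} [Group K] (f : ∀ v, G v →* K)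
    (hf : ∀ v w, Γ.Adj v w → ∀ (a : G v) (b : G w), Commute (f v a) (f w b)) : Gp Γ G →* K :=
  QuotientGroup.lift _ (Monoid.CoprodI.lift f) (by
    intro x hx
    have h1 : Subgroup.normalClosure (comms Γ G) ≤ (Monoid.CoprodI.lift f).ker := by
      apply Subgroup.normalClosure_le_normal
      rintro r ⟨v, w, a, b, h, rfl⟩
      rw [SetLike.mem_coe, MonoidHom.mem_ker]
      simp only [map_mul, map_inv, Monoid.CoprodI.lift_of]
      rw [(hf v w h a b).eq]
      group
    exact h1 hx)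

theorem glift_of {K : Type w} [Group K] (f : ∀ v, G v →* K)
    (hf : ∀ v w, Γ.Adj v w → ∀ (a : G v) (b : G w), Commute (f v a) (f w b)) (v : V) (a : G v) :
    glift f hf (gof Γ v a) = f v a := by
  unfold glift gof
  simp

theorem gind {p : Gp Γ G → Prop} (g : Gp Γ G) (h1 : p 1) (ho : ∀ v a, p (gof Γ v a))
    (hm : ∀ x y, p x → p y → p (x * y)) : p g := by
  obtain ⟨x, rfl⟩ := QuotientGroup.mk'_surjective _ g
  induction x using Monoid.CoprodI.induction_on with
  | one => exact h1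
  | of v a => exact ho v a
  | mul x y hx hy => exact hm _ _ hx hy

open Classical in
/-- the projection -/
noncomputable def gq : Gp Γ G →* (∀ v, G v) :=
  glift (fun v => MonoidHom.mulSingle G v) (fun v w h a b => Pi.mulSingle_commute h.ne a b)

open Classical in
theorem gq_of (v : V) (a : G v) : gq (gof Γ v a) = Pi.mulSingle v a := by
  unfold gq
  rw [glift_of]
  rfl

theorem gq_mul_of_same (g : Gp Γ G) (v : V) (a : G v) : gq (g * gof Γ v a) v = gq g v * a := by
  classical
  rw [map_mul, gq_of, Pi.mul_apply, Pi.mulSingle_eq_same]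

theorem gq_mul_of_ne (g : Gp Γ G) (v : V) (a : G v) {w : V} (h : w ≠ v) : gq (g * gof Γ v a) w = gq g w := by
  classical
  rw [map_mul, gq_of, Pi.mul_apply, Pi.mulSingle_eq_of_ne h, mul_one]

/-- commuting labels for adjacent vertices -/
def Cm (Γ : SimpleGraph V) {S : V → Type w} {R : Type w} [Group R] (Y : ∀ v, S v → R) : Prop :=
  ∀ v w, Γ.Adj v w → ∀ (a : S v) (b : S w), Commute (Y v a) (Y w b)

open Classical in
/-- one vertex group -/
noncomputable def hv {R : Type u} [Group R] (Y : ∀ v, G v → R) (v : V) :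
    G v →* ((∀ v, G v) → R) ⋊[rt (∀ v, G v) R] (∀ v, G v) where
  toFun a := ⟨fun k => (Y v (k v))⁻¹ * Y v (k v * a), Pi.mulSingle v a⟩
  map_one' := by
    apply SemidirectProduct.ext
    · funext k
      simp
    · simp
  map_mul' a b := by
    apply SemidirectProduct.ext
    · funext k
      change (Y v (k v))⁻¹ * Y v (k v * (a * b)) =
        ((Y v (k v))⁻¹ * Y v (k v * a)) * ((Y v ((k * Pi.mulSingle v a) v))⁻¹ *
          Y v ((k * Pi.mulSingle v a) v * b))
      rw [Pi.mul_apply, Pi.mulSingle_eq_same, mul_assoc (k v)]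
      group
    · change Pi.mulSingle v (a * b) = Pi.mulSingle v a * Pi.mulSingle v b
      rw [Pi.mulSingle_mul]

theorem hv_comm {R : Type u} [Group R] {Y : ∀ v, G v → R} (hY : Cm Γ Y) (v w : V) (h : Γ.Adj v w)
    (a : G v) (b : G w) : Commute (hv Y v a) (hv Y w b) := by
  classical
  apply SemidirectProduct.ext
  · funext k
    change ((Y v (k v))⁻¹ * Y v (k v * a)) * ((Y w ((k * Pi.mulSingle v a) w))⁻¹ *
        Y w ((k * Pi.mulSingle v a) w * b)) =
      ((Y w (k w))⁻¹ * Y w (k w * b)) * ((Y v ((k * Pi.mulSingle w b) v))⁻¹ *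
        Y v ((k * Pi.mulSingle w b) v * a))
    rw [Pi.mul_apply, Pi.mul_apply, Pi.mulSingle_eq_of_ne h.ne', Pi.mulSingle_eq_of_ne h.ne, mul_one, mul_one]
    have c1 : Commute ((Y v (k v))⁻¹ * Y v (k v * a)) (Y w (k w))⁻¹ :=
      (((hY v w h _ _).inv_left).mul_left (hY v w h _ _)).inv_right
    have c2 : Commute ((Y v (k v))⁻¹ * Y v (k v * a)) (Y w (k w * b)) :=
      ((hY v w h _ _).inv_left).mul_left (hY v w h _ _)
    exact (c1.mul_right c2).eq
  · change Pi.mulSingle v a * Pi.mulSingle w b = Pi.mulSingle w b * Pi.mulSingle v a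
    exact Pi.mulSingle_commute h.ne a b

/-- holonomy as a homomorphism -/
noncomputable def gP {R : Type u} [Group R] {Y : ∀ v, G v → R} (hY : Cm Γ Y) :
    Gp Γ G →* ((∀ v, G v) → R) ⋊[rt (∀ v, G v) R] (∀ v, G v) :=
  glift (hv Y) (hv_comm hY)

/-- holonomy -/
noncomputable def gu {R : Type u} [Group R] {Y : ∀ v, G v → R} (hY : Cm Γ Y) (g : Gp Γ G) (k : ∀ v, G v) : R :=
  (gP hY g).left k

theorem gP_right {R : Type u} [Group R] {Y : ∀ v, G v → R} (hY : Cm Γ Y) (g : Gp Γ G) :
    (gP hY g).right = gq g := by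
  classical
  refine gind (p := fun g => (gP hY g).right = gq g) g ?_ ?_ ?_
  · rw [map_one, map_one]
    rfl
  · intro v a
    unfold gP
    rw [glift_of, gq_of]
    rfl
  · intro x y hx hy
    rw [map_mul, map_mul, SemidirectProduct.mul_right, hx, hy]

theorem gu_mul {R : Type u} [Group R] {Y : ∀ v, G v → R} (hY : Cm Γ Y) (g h : Gp Γ G) (k : ∀ v, G v) :
    gu hY (g * h) k = gu hY g k * gu hY h (k * gq g) := by
  unfold gu
  rw [map_mul, SemidirectProduct.mul_left, gP_right]
  rfl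

theorem gu_mul1 {R : Type u} [Group R] {Y : ∀ v, G v → R} (hY : Cm Γ Y) (g h : Gp Γ G) :
    gu hY (g * h) 1 = gu hY g 1 * gu hY h (gq g) := by
  rw [gu_mul, one_mul]

theorem gu_one {R : Type u} [Group R] {Y : ∀ v, G v → R} (hY : Cm Γ Y) (k : ∀ v, G v) : gu hY 1 k = 1 := by
  unfold gu
  rw [map_one]
  rfl

theorem gu_of {R : Type u} [Group R] {Y : ∀ v, G v → R} (hY : Cm Γ Y) (v : V) (a : G v) (k : ∀ v, G v) :
    gu hY (gof Γ v a) k = (Y v (k v))⁻¹ * Y v (k v * a) := by
  unfold gu gP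
  rw [glift_of]
  rfl

/-- the path of `g` runs inside the product of the `T v` -/
inductive Good (T : ∀ v, Set (G v)) : Gp Γ G → Prop
  | one : Good T 1
  | mul (g : Gp Γ G) (v : V) (a : G v) (hg : Good T g) (h : gq g v * a ∈ T v) : Good T (g * gof Γ v a)

theorem Good.mem {T : ∀ v, Set (G v)} (h1 : ∀ v, 1 ∈ T v) {g : Gp Γ G} (hg : Good T g) : ∀ w, gq g w ∈ T w := by
  classical
  induction hg with
  | one =>
    intro w
    rw [map_one]
    exact h1 w
  | mul g v a hg h ih =>
    intro w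
    by_cases hw : w = v
    · subst hw
      rw [gq_mul_of_same]
      exact h
    · rw [gq_mul_of_ne g v a hw]
      exact ih w

theorem good_large (g : Gp Γ G) : ∀ h : Gp Γ G,
    (∃ F : ∀ v, Finset (G v), ∀ T : ∀ v, Set (G v), (∀ v, (F v : Set (G v)) ⊆ T v) → Good T h) →
    ∃ F : ∀ v, Finset (G v), ∀ T : ∀ v, Set (G v), (∀ v, (F v : Set (G v)) ⊆ T v) → Good T (h * g) := by
  classical
  refine gind (p := fun g => ∀ h : Gp Γ G,
    (∃ F : ∀ v, Finset (G v), ∀ T : ∀ v, Set (G v), (∀ v, (F v : Set (G v)) ⊆ T v) → Good T h) →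
    ∃ F : ∀ v, Finset (G v), ∀ T : ∀ v, Set (G v), (∀ v, (F v : Set (G v)) ⊆ T v) → Good T (h * g)) g ?_ ?_ ?_
  · intro h hh
    rw [mul_one]
    exact hh
  · rintro v a h ⟨F, hF⟩
    refine ⟨fun w => insert (gq (h * gof Γ v a) w) (F w), fun T hT => ?_⟩
    refine Good.mul h v a (hF T fun w x hx => hT w ?_) (hT v ?_)
    · rw [Finset.mem_coe] at hx ⊢
      exact Finset.mem_insert_of_mem hx
    · rw [Finset.mem_coe, ← gq_mul_of_same]
      exact Finset.mem_insert_self _ _
  · intro x y hx hy h hh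
    rw [← mul_assoc]
    exact hy _ (hx _ hh)

theorem good_fin (F : Finset (Gp Γ G)) : ∃ E : ∀ v, Finset (G v), ∀ T : ∀ v, Set (G v),
    (∀ v, (E v : Set (G v)) ⊆ T v) → ∀ f ∈ F, Good T f := by
  classical
  induction F using Finset.induction_on with
  | empty => exact ⟨fun _ => ∅, fun T _ f hf => absurd hf (Finset.notMem_empty f)⟩
  | insert a F _ ih =>
    obtain ⟨E, h⟩ := ih
    obtain ⟨E', h'⟩ := good_large a 1 ⟨fun _ => ∅, fun T _ => Good.one⟩
    rw [one_mul] at h'
    refine ⟨fun v => E v ∪ E' v, fun T hT f hf => ?_⟩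
    have h1 : ∀ v, (E v : Set (G v)) ⊆ T v ∧ (E' v : Set (G v)) ⊆ T v := by
      intro v
      have := hT v
      rw [Finset.coe_union, Set.union_subset_iff] at this
      exact this
    rcases Finset.mem_insert.mp hf with h3 | h3
    · rw [h3]
      exact h' T fun v => (h1 v).2
    · exact h T (fun v => (h1 v).1) f h3

end Pool.Agent.H25.GP
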