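import Mathlib

/-!
# H25/GP/Mat: a finite representation which detects a reduced partially commutative word

PROOF. `N = |∏ e i| + 1`, `Z = ZMod N` (so the image of `∏ e i` is not zero), matrices over `Z` indexed by `Finset (Fin n)`.
`dep i j : x i = x j ∨ ¬ c (x i) (x j)`. `i` is addable to `S` if `i ∉ S` and for all `j ≠ i` with `dep i j`: `j ∈ S ↔ j < i`.
`M a S S' = 1` if `S' = insert i S` for some addable `i` with `x i = a`, otherwise `0`.
(1) `M a * M a = 0`: if `i` is addable to `S` and `i'` to `insert i S`, `x i = x i' = a`, then `i < i'`; take `k` from `hred`; then `k ∉ S` (from `i`) and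
`k ∈ S` (from `i'`). (2) if `c a b`, `a ≠ b`, then `M a * M b = M b * M a` (adding `i` does not change whether `j` is addable).
So `ρ a = 1 + M a` is a unit (inverse `1 - M a`) with `ρ a ^ e = 1 + e • M a`. (3) Let `Q m` be the product of the first `m` factors. By induction on `m`:
`Q m ∅ S = 0` if `m < S.card`, and for `S.card = m`: `Q m ∅ S = ∏_{i < m} e i` if `S = {i | i < m}`, otherwise `0`
(for the step: `M (x m) {i | i < m} S = 1` exactly if `S = insert m {i | i < m}`, because an `i > m` with `x i = x m` needs `m ∈ S`).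
So the entry `∅, univ` of the whole product is `∏ e i`, not `0`, which is the entry of `1` (`0 < n`).
-/

set_option autoImplicit false

namespace Pool.Agent.H25.GP

section aux

variable {ι : Type} (c : ι → ι → Prop) {n : ℕ} (x : Fin n → ι)

/-- `i` may be added to `S` -/
private def Adb (i : Fin n) (S : Finset (Fin n)) : Prop :=
  i ∉ S ∧ ∀ j, j ≠ i → (x i = x j ∨ ¬ c (x i) (x j)) → (j ∈ S ↔ j < i)

private theorem adb_uniq {i i' : Fin n} {S : Finset (Fin n)} (h : Adb c x i S) (h' : Adb c x i' S)
    (e : x i = x i') : i = i' := by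
  by_contra hne
  rcases lt_or_gt_of_ne hne with hlt | hlt
  · exact h.1 ((h'.2 i hne (Or.inl e.symm)).2 hlt)
  · exact h'.1 ((h.2 i' (Ne.symm hne) (Or.inl e)).2 hlt)

variable {Z : Type} [AddCommGroup Z]

open Classical in
/-- the nilpotent operator -/
private noncomputable def Top (a : ι) (v : Finset (Fin n) → Z) (S : Finset (Fin n)) : Z :=
  if h : ∃ i, x i = a ∧ Adb c x i S then v (insert h.choose S) else 0

private theorem top_eq {a : ι} {v : Finset (Fin n) → Z} {S : Finset (Fin n)} {i : Fin n} (hi : x i = a)
    (h : Adb c x i S) : Top c x a v S = v (insert i S) := by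
  classical
  have hex : ∃ i, x i = a ∧ Adb c x i S := ⟨i, hi, h⟩
  unfold Top
  rw [dif_pos hex]
  have h1 := hex.choose_spec
  have h2 : hex.choose = i := adb_uniq c x h1.2 h (h1.1.trans hi.symm)
  rw [h2]

private theorem top_zero {a : ι} {v : Finset (Fin n) → Z} {S : Finset (Fin n)}
    (h : ∀ i, x i = a → ¬ Adb c x i S) : Top c x a v S = 0 := by
  unfold Top
  rw [dif_neg]
  rintro ⟨i, h1, h2⟩
  exact h i h1 h2

private theorem top_add (a : ι) (v w : Finset (Fin n) → Z) :
    Top c x a (v + w) = Top c x a v + Top c x a w := by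
  funext S
  by_cases h : ∃ i, x i = a ∧ Adb c x i S
  · obtain ⟨i, h1, h2⟩ := h
    rw [Pi.add_apply, top_eq c x h1 h2, top_eq c x h1 h2, top_eq c x h1 h2, Pi.add_apply]
  · push Not at h
    rw [Pi.add_apply, top_zero c x h, top_zero c x h, top_zero c x h, add_zero]

private theorem top_neg (a : ι) (v : Finset (Fin n) → Z) :
    Top c x a (-v) = -Top c x a v := by
  funext S
  by_cases h : ∃ i, x i = a ∧ Adb c x i S
  · obtain ⟨i, h1, h2⟩ := h
    rw [Pi.neg_apply, top_eq c x h1 h2, top_eq c x h1 h2, Pi.neg_apply]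
  · push Not at h
    rw [Pi.neg_apply, top_zero c x h, top_zero c x h, neg_zero]

private theorem top_top (hc : ∀ i j, c i j → c j i)
    (hred : ∀ i j, i < j → x i = x j → ∃ k, i < k ∧ k < j ∧ x k ≠ x i ∧ ¬ c (x k) (x i))
    (a : ι) (v : Finset (Fin n) → Z) : Top c x a (Top c x a v) = 0 := by
  classical
  funext S
  rw [Pi.zero_apply]
  by_cases h : ∃ i, x i = a ∧ Adb c x i S
  · obtain ⟨i, h1, h2⟩ := h
    rw [top_eq c x h1 h2]
    refine top_zero c x fun i' h3 h4 => ?_
    have hne : i ≠ i' := fun e => h4.1 (e ▸ Finset.mem_insert_self i S)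
    have hlt : i < i' := (h4.2 i hne (Or.inl (h3.trans h1.symm))).1 (Finset.mem_insert_self i S)
    obtain ⟨k, hk1, hk2, hk3, hk4⟩ := hred i i' hlt (h1.trans h3.symm)
    have h5 : ¬ c (x i) (x k) := fun h => hk4 (hc _ _ h)
    have h6 : ¬ c (x i') (x k) := by rw [h3, ← h1]; exact h5
    have h7 : k ∈ insert i S := (h4.2 k hk2.ne (Or.inr h6)).2 hk2
    have h8 : k ∈ S := (Finset.mem_insert.1 h7).resolve_left hk1.ne'
    exact absurd ((h2.2 k hk1.ne' (Or.inr h5)).1 h8) (not_lt.2 hk1.le)
  · push Not at h
    exact top_zero c x h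

private theorem adb_insert {a b : ι} (hab : a ≠ b) (hcba : c b a) {i i' : Fin n} (hi : x i = a) (hi' : x i' = b)
    (S : Finset (Fin n)) : Adb c x i' (insert i S) ↔ Adb c x i' S := by
  classical
  have hne : i' ≠ i := fun e => hab (by rw [← hi, ← hi', e])
  unfold Adb
  refine and_congr ?_ ?_
  · rw [Finset.mem_insert, not_or]
    exact ⟨fun h => h.2, fun h => ⟨hne, h⟩⟩
  · refine forall_congr' fun j => forall_congr' fun hj => forall_congr' fun hd => ?_
    have hji : j ≠ i := by
      rintro rfl
      rcases hd with hd | hd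
      · exact hab (by rw [← hi, ← hi', hd])
      · rw [hi, hi'] at hd
        exact hd hcba
    rw [Finset.mem_insert, or_iff_right hji]

private theorem top_comm (hc : ∀ i j, c i j → c j i) {a b : ι} (hcab : c a b) (v : Finset (Fin n) → Z) :
    Top c x a (Top c x b v) = Top c x b (Top c x a v) := by
  classical
  by_cases hab : a = b
  · rw [hab]
  funext S
  by_cases hA : ∃ i, x i = a ∧ Adb c x i S
  · obtain ⟨i, h1, h2⟩ := hA
    rw [top_eq c x h1 h2]
    by_cases hB : ∃ i, x i = b ∧ Adb c x i S
    · obtain ⟨i', h3, h4⟩ := hB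
      rw [top_eq c x h3 h4, top_eq c x h3 ((adb_insert c x hab (hc _ _ hcab) h1 h3 S).2 h4),
        top_eq c x h1 ((adb_insert c x (Ne.symm hab) hcab h3 h1 S).2 h2), Finset.insert_comm]
    · push Not at hB
      rw [top_zero c x hB]
      exact top_zero c x fun i' h3 h4 => hB i' h3 ((adb_insert c x hab (hc _ _ hcab) h1 h3 S).1 h4)
  · push Not at hA
    rw [top_zero c x hA]
    by_cases hB : ∃ i, x i = b ∧ Adb c x i S
    · obtain ⟨i', h3, h4⟩ := hB
      rw [top_eq c x h3 h4]
      exact (top_zero c x fun i h1 h2 => hA i h1 ((adb_insert c x (Ne.symm hab) hcab h3 h1 S).1 h2)).symm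
    · push Not at hB
      rw [top_zero c x hB]

/-- `v ↦ v + T v` -/
private noncomputable def rho (hc : ∀ i j, c i j → c j i)
    (hred : ∀ i j, i < j → x i = x j → ∃ k, i < k ∧ k < j ∧ x k ≠ x i ∧ ¬ c (x k) (x i)) (a : ι) :
    Equiv.Perm (Finset (Fin n) → Z) where
  toFun v := v + Top c x a v
  invFun v := v - Top c x a v
  left_inv v := by
    simp only [top_add c x, top_top c x hc hred]
    abel
  right_inv v := by
    simp only [sub_eq_add_neg, top_add c x, top_neg c x, top_top c x hc hred]
    abel

private theorem rho_apply (hc : ∀ i j, c i j → c j i)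
    (hred : ∀ i j, i < j → x i = x j → ∃ k, i < k ∧ k < j ∧ x k ≠ x i ∧ ¬ c (x k) (x i)) (a : ι)
    (v : Finset (Fin n) → Z) : rho (Z := Z) c x hc hred a v = v + Top c x a v := rfl

private theorem rho_symm_apply (hc : ∀ i j, c i j → c j i)
    (hred : ∀ i j, i < j → x i = x j → ∃ k, i < k ∧ k < j ∧ x k ≠ x i ∧ ¬ c (x k) (x i)) (a : ι)
    (v : Finset (Fin n) → Z) : (rho (Z := Z) c x hc hred a)⁻¹ v = v - Top c x a v := rfl

private theorem rho_zpow (hc : ∀ i j, c i j → c j i)
    (hred : ∀ i j, i < j → x i = x j → ∃ k, i < k ∧ k < j ∧ x k ≠ x i ∧ ¬ c (x k) (x i)) (a : ι) (e : ℤ)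
    (v : Finset (Fin n) → Z) : (rho (Z := Z) c x hc hred a ^ e) v = v + e • Top c x a v := by
  induction e using Int.induction_on generalizing v with
  | zero => simp
  | succ k ih =>
    rw [zpow_add_one, Equiv.Perm.mul_apply, ih, rho_apply, top_add c x, top_top c x hc hred, add_zero, add_smul,
      one_smul]
    abel
  | pred k ih =>
    rw [zpow_sub_one, Equiv.Perm.mul_apply, ih, rho_symm_apply, sub_eq_add_neg, top_add c x, top_neg c x,
      top_top c x hc hred, neg_zero, add_zero, sub_smul, one_smul]
    abel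

end aux

theorem mat_sep {ι : Type} (c : ι → ι → Prop) (hc : ∀ i j, c i j → c j i) (n : ℕ) (hn : 0 < n) (x : Fin n → ι)
    (e : Fin n → ℤ) (he : ∀ i, e i ≠ 0)
    (hred : ∀ i j, i < j → x i = x j → ∃ k, i < k ∧ k < j ∧ x k ≠ x i ∧ ¬ c (x k) (x i)) :
    ∃ (P : Type) (_ : Group P) (_ : Finite P) (ρ : ι → P), (∀ i j, c i j → Commute (ρ i) (ρ j)) ∧
      (List.ofFn fun i => ρ (x i) ^ e i).prod ≠ 1 := by
  classical
  obtain ⟨N, hN⟩ : ∃ N : ℕ, N = (∏ i, e i).natAbs + 1 := ⟨_, rfl⟩
  have hpe : (∏ i, e i) ≠ 0 := Finset.prod_ne_zero_iff.2 fun i _ => he i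
  have hN0 : N ≠ 0 := by omega
  have : NeZero N := ⟨hN0⟩
  have hZ : ((∏ i, e i : ℤ) : ZMod N) ≠ 0 := by
    intro h
    rw [ZMod.intCast_zmod_eq_zero_iff_dvd] at h
    have h1 := Int.natAbs_dvd_natAbs.2 h
    rw [Int.natAbs_natCast] at h1
    have h2 := Nat.le_of_dvd (Int.natAbs_pos.2 hpe) h1
    omega
  refine ⟨Equiv.Perm (Finset (Fin n) → ZMod N), inferInstance, inferInstance, fun a => rho c x hc hred a, ?_, ?_⟩
  · intro a b hab
    ext v : 1
    simp only [Equiv.Perm.mul_apply, rho_apply, top_add c x]
    rw [top_comm c x hc hab]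
    abel
  · intro hone
    obtain ⟨l, hl⟩ : ∃ l : List (Equiv.Perm (Finset (Fin n) → ZMod N)),
      l = List.ofFn fun i => rho c x hc hred (x i) ^ e i := ⟨_, rfl⟩
    rw [← hl] at hone
    have hlen : l.length = n := by rw [hl, List.length_ofFn]
    set v : Finset (Fin n) → ZMod N := fun S => if S = Finset.univ then 1 else 0 with hv
    have key : ∀ k m : ℕ, k + m = n → ∀ S : Finset (Fin n),
        (S.card < m → (l.drop m).prod v S = 0) ∧
        (S.card = m → (l.drop m).prod v S = if S = Finset.univ.filter (fun i : Fin n => (i : ℕ) < m) then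
          ((∏ i ∈ Finset.univ.filter (fun i : Fin n => m ≤ (i : ℕ)), e i : ℤ) : ZMod N) else 0) := by
      intro k
      induction k with
      | zero =>
        intro m hm S
        have h1 : l.drop m = [] := List.drop_eq_nil_of_le (by omega)
        rw [h1, List.prod_nil]
        have h2 : Finset.univ.filter (fun i : Fin n => (i : ℕ) < m) = Finset.univ := by
          ext i
          simp only [Finset.mem_filter, Finset.mem_univ, true_and, iff_true]
          omega
        have h3 : Finset.univ.filter (fun i : Fin n => m ≤ (i : ℕ)) = ∅ := by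
          ext i
          simp only [Finset.mem_filter, Finset.mem_univ, true_and, Finset.notMem_empty, iff_false]
          omega
        rw [h2, h3, Finset.prod_empty, Int.cast_one]
        refine ⟨fun h => ?_, fun _ => rfl⟩
        show v S = 0
        rw [hv]
        refine if_neg fun h4 => ?_
        rw [h4, Finset.card_univ, Fintype.card_fin] at h
        omega
      | succ k ih =>
        intro m hm S
        have hmn : m < n := by omega
        have h1 : l.drop m = (rho c x hc hred (x ⟨m, hmn⟩) ^ e ⟨m, hmn⟩) :: l.drop (m + 1) := by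
          rw [List.drop_eq_getElem_cons (by omega)]
          congr 1
          simp only [hl, List.getElem_ofFn]
        have ih1 := ih (m + 1) (by omega)
        rw [h1, List.prod_cons, Equiv.Perm.mul_apply, rho_zpow, Pi.add_apply, Pi.smul_apply]
        refine ⟨fun h => ?_, fun h => ?_⟩
        · rw [(ih1 S).1 (by omega)]
          by_cases hA : ∃ i, x i = x ⟨m, hmn⟩ ∧ Adb c x i S
          · obtain ⟨i, h2, h3⟩ := hA
            rw [top_eq c x h2 h3, (ih1 _).1 (by rw [Finset.card_insert_of_notMem h3.1]; omega), smul_zero, add_zero]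
          · push Not at hA
            rw [top_zero c x hA, smul_zero, add_zero]
        · rw [(ih1 S).1 (by omega), zero_add]
          have hm0 : (⟨m, hmn⟩ : Fin n) ∉ Finset.univ.filter (fun i : Fin n => (i : ℕ) < m) := by simp
          have hins : insert (⟨m, hmn⟩ : Fin n) (Finset.univ.filter (fun i : Fin n => (i : ℕ) < m)) =
              Finset.univ.filter (fun i : Fin n => (i : ℕ) < m + 1) := by
            ext i
            simp only [Finset.mem_insert, Finset.mem_filter, Finset.mem_univ, true_and, Fin.ext_iff]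
            omega
          have hprod : (∏ i ∈ Finset.univ.filter (fun i : Fin n => m ≤ (i : ℕ)), e i) =
              e ⟨m, hmn⟩ * ∏ i ∈ Finset.univ.filter (fun i : Fin n => m + 1 ≤ (i : ℕ)), e i := by
            have h4 : Finset.univ.filter (fun i : Fin n => m ≤ (i : ℕ)) =
                insert (⟨m, hmn⟩ : Fin n) (Finset.univ.filter (fun i : Fin n => m + 1 ≤ (i : ℕ))) := by
              ext i
              simp only [Finset.mem_insert, Finset.mem_filter, Finset.mem_univ, true_and, Fin.ext_iff]
              omega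
            rw [h4, Finset.prod_insert (by simp)]
          by_cases hA : ∃ i, x i = x ⟨m, hmn⟩ ∧ Adb c x i S
          · obtain ⟨i, h2, h3⟩ := hA
            rw [top_eq c x h2 h3, (ih1 _).2 (by rw [Finset.card_insert_of_notMem h3.1]; omega)]
            by_cases hS : S = Finset.univ.filter (fun i : Fin n => (i : ℕ) < m)
            · have hadd : Adb c x ⟨m, hmn⟩ S := by
                rw [hS]
                refine ⟨hm0, fun j _ _ => ?_⟩
                simp only [Finset.mem_filter, Finset.mem_univ, true_and, Fin.lt_def]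
              have h5 : i = ⟨m, hmn⟩ := adb_uniq c x h3 hadd h2
              rw [if_pos hS, if_pos (by rw [h5, hS, hins]), hprod, zsmul_eq_mul, Int.cast_mul]
            · rw [if_neg hS, if_neg, smul_zero]
              intro h4
              apply hS
              have him : i = ⟨m, hmn⟩ := by
                by_contra hne
                have h5 : i ∈ Finset.univ.filter (fun i : Fin n => (i : ℕ) < m + 1) :=
                  h4 ▸ Finset.mem_insert_self i S
                have h6 : (⟨m, hmn⟩ : Fin n) ∈ insert i S := by rw [h4]; simp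
                have h7 : (⟨m, hmn⟩ : Fin n) ∈ S := (Finset.mem_insert.1 h6).resolve_left (Ne.symm hne)
                have h8 := (h3.2 ⟨m, hmn⟩ (Ne.symm hne) (Or.inl h2)).1 h7
                simp only [Finset.mem_filter, Finset.mem_univ, true_and] at h5
                rw [Fin.lt_def] at h8
                have h9 : (i : ℕ) ≠ m := fun h => hne (Fin.ext h)
                simp only at h8
                omega
              rw [him, ← hins] at h4
              have h10 := congrArg (fun A => A.erase (⟨m, hmn⟩ : Fin n)) h4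
              rwa [Finset.erase_insert (him ▸ h3.1), Finset.erase_insert hm0] at h10
          · push Not at hA
            rw [top_zero c x hA, smul_zero, if_neg]
            intro hS
            refine hA ⟨m, hmn⟩ rfl ?_
            rw [hS]
            refine ⟨hm0, fun j _ _ => ?_⟩
            simp only [Finset.mem_filter, Finset.mem_univ, true_and, Fin.lt_def]
    have h1 := (key n 0 (by omega) ∅).2 Finset.card_empty
    rw [List.drop_zero, hone, if_pos (by simp)] at h1
    have h2 : Finset.univ.filter (fun i : Fin n => 0 ≤ (i : ℕ)) = Finset.univ := by simp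
    rw [h2] at h1
    apply hZ
    rw [← h1]
    show v ∅ = 0
    rw [hv]
    refine if_neg fun h3 => ?_
    have h4 : (⟨0, hn⟩ : Fin n) ∈ (∅ : Finset (Fin n)) := h3 ▸ Finset.mem_univ _
    exact absurd h4 (Finset.notMem_empty _)

end Pool.Agent.H25.GP
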