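import Pool.Agent.H25.GP.Mat

/-!
# H25/GP/Sep: finite quotients of partially commutative groups

PROOF of `raag_sep` from `mat_sep`. Let `A = PresentedGroup {r | ∃ i j, c i j ∧ r = of i * of j * (of i)⁻¹ * (of j)⁻¹}` and
`ev f l = (l.map fun p => f p.1 ^ p.2).prod` for lists `l : List (ι × ℤ)`. There is a list `l` with `ev a l = (FreeGroup.lift a) w` (`a i` the
generators of `A`); take one of minimal length. Every commuting family `f : ι → G` gives a homomorphism `A → G`
(`PresentedGroup.toGroup`), so `FreeGroup.lift f w = ev f l` for all of them; hence `l ≠ []` by `hw`. Minimality: all exponents are not `0`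
(drop the letter), and if `l = l1 ++ (y,e) :: l2 ++ (y,e') :: l3` then some letter `z ≠ y` of `l2` has `¬ c z y` (otherwise `y ^ e` commutes with
`ev a l2` and `l1 ++ l2 ++ (y, e + e') :: l3` is shorter). Apply `mat_sep` with `n = l.length`, `x i = (l.get i).1`, `e i = (l.get i).2`.
-/

set_option autoImplicit false

namespace Pool.Agent.H25.GP

universe u

/-- the value of a list of powers of letters -/
def ev {ι : Type} {G : Type u} [Group G] (f : ι → G) (l : List (ι × ℤ)) : G :=
  (l.map fun p => f p.1 ^ p.2).prod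

theorem ev_append {ι : Type} {G : Type u} [Group G] (f : ι → G) (l l' : List (ι × ℤ)) :
    ev f (l ++ l') = ev f l * ev f l' := by
  simp [ev]

theorem ev_cons {ι : Type} {G : Type u} [Group G] (f : ι → G) (p : ι × ℤ) (l : List (ι × ℤ)) :
    ev f (p :: l) = f p.1 ^ p.2 * ev f l := by
  simp [ev]

theorem ev_commute {ι : Type} {G : Type u} [Group G] (f : ι → G) (g : G) (l : List (ι × ℤ))
    (h : ∀ p ∈ l, Commute g (f p.1)) : Commute g (ev f l) := by
  induction l with
  | nil => exact Commute.one_right g
  | cons p l ih =>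
    rw [ev_cons]
    exact ((h p (by simp)).zpow_right p.2).mul_right (ih fun q hq => h q (by simp [hq]))

/-- every word is a list of powers of letters -/
theorem exists_ev {ι : Type} (w : FreeGroup ι) : ∃ l : List (ι × ℤ), ∀ (G : Type) [Group G] (f : ι → G),
    FreeGroup.lift f w = ev f l := by
  classical
  refine ⟨w.toWord.map fun p => (p.1, if p.2 then 1 else -1), fun G _ f => ?_⟩
  conv_lhs => rw [← FreeGroup.mk_toWord (x := w)]
  rw [FreeGroup.lift_mk]
  unfold ev
  rw [List.map_map]
  congr 1
  apply List.map_congr_left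
  rintro ⟨i, b⟩ _
  cases b <;> simp

theorem list_split {α : Type} (l : List α) (i j : ℕ) (hij : i < j) (hj : j < l.length) :
    ∃ l1 l2 l3 : List α, l = l1 ++ l[i] :: (l2 ++ l[j] :: l3) ∧
      ∀ z ∈ l2, ∃ (k : ℕ) (_ : i < k) (_ : k < j) (hk : k < l.length), z = l[k] := by
  refine ⟨l.take i, (l.drop (i + 1)).take (j - (i + 1)), l.drop (j + 1), ?_, ?_⟩
  · have h1 : l.drop (i + 1) = (l.drop (i + 1)).take (j - (i + 1)) ++ l[j] :: l.drop (j + 1) := by
      conv_lhs => rw [← List.take_append_drop (j - (i + 1)) (l.drop (i + 1))]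
      congr 1
      rw [List.drop_drop, ← List.drop_eq_getElem_cons hj]
      congr 1
      omega
    conv_lhs => rw [← List.take_append_drop i l, List.drop_eq_getElem_cons (by omega : i < l.length), h1]
  · intro z hz
    obtain ⟨t, ht, rfl⟩ := List.mem_iff_getElem.mp hz
    rw [List.length_take, List.length_drop] at ht
    refine ⟨i + 1 + t, by omega, by omega, by omega, ?_⟩
    rw [List.getElem_take, List.getElem_drop]

theorem raag_sep {ι : Type} (c : ι → ι → Prop) (hc : ∀ i j, c i j → c j i) (w : FreeGroup ι)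
    (hw : ∃ (G : Type u) (_ : Group G) (f : ι → G), (∀ i j, c i j → Commute (f i) (f j)) ∧ FreeGroup.lift f w ≠ 1) :
    ∃ (P : Type) (_ : Group P) (_ : Finite P) (ρ : ι → P), (∀ i j, c i j → Commute (ρ i) (ρ j)) ∧
      FreeGroup.lift ρ w ≠ 1 := by
  classical
  let rels : Set (FreeGroup ι) := {r | ∃ i j, c i j ∧ r = FreeGroup.of i * FreeGroup.of j * (FreeGroup.of i)⁻¹ *
    (FreeGroup.of j)⁻¹}
  let a : ι → PresentedGroup rels := PresentedGroup.of
  have hlift : FreeGroup.lift a = PresentedGroup.mk rels := by
    ext i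
    simp [a, PresentedGroup.of]
  have ha : ∀ i j, c i j → Commute (a i) (a j) := by
    intro i j hij
    have h1 : PresentedGroup.mk rels (FreeGroup.of i * FreeGroup.of j * (FreeGroup.of i)⁻¹ *
        (FreeGroup.of j)⁻¹) = 1 := by
      apply PresentedGroup.one_of_mem
      exact ⟨i, j, hij, rfl⟩
    simp only [map_mul, map_inv] at h1
    change a i * a j * (a i)⁻¹ * (a j)⁻¹ = 1 at h1
    exact mul_inv_eq_iff_eq_mul.mp (mul_inv_eq_one.mp h1)
  obtain ⟨l0, hl0⟩ := exists_ev w
  have hex : ∃ n, ∃ l : List (ι × ℤ), l.length = n ∧ ev a l = FreeGroup.lift a w :=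
    ⟨_, l0, rfl, (hl0 _ a).symm⟩
  obtain ⟨l, hln, hl⟩ := Nat.find_spec hex
  have hmin : ∀ l' : List (ι × ℤ), l'.length < l.length → ev a l' ≠ FreeGroup.lift a w := by
    intro l' h1 h2
    rw [hln] at h1
    exact Nat.find_min hex h1 ⟨l', rfl, h2⟩
  -- values in other groups
  have hval : ∀ {G : Type u} [Group G] (f : ι → G), (∀ i j, c i j → Commute (f i) (f j)) →
      FreeGroup.lift f w = ev f l := by
    intro G _ f hf
    have hr : ∀ r ∈ rels, FreeGroup.lift f r = 1 := by
      rintro r ⟨i, j, hij, rfl⟩
      simp only [map_mul, map_inv, FreeGroup.lift_apply_of]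
      rw [(hf i j hij).eq]
      group
    have h1 : ∀ v : FreeGroup ι, PresentedGroup.toGroup hr (FreeGroup.lift a v) = FreeGroup.lift f v := by
      intro v
      have : (PresentedGroup.toGroup hr).comp (FreeGroup.lift a) = FreeGroup.lift f := by
        ext i
        simp [a]
      rw [← this]
      rfl
    rw [← h1, ← hl]
    unfold ev
    rw [map_list_prod, List.map_map]
    congr 1
    apply List.map_congr_left
    intro p _
    simp [a]
  have hval0 : ∀ {G : Type} [Group G] (f : ι → G), (∀ i j, c i j → Commute (f i) (f j)) →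
      FreeGroup.lift f w = ev f l := by
    intro G _ f hf
    have hr : ∀ r ∈ rels, FreeGroup.lift f r = 1 := by
      rintro r ⟨i, j, hij, rfl⟩
      simp only [map_mul, map_inv, FreeGroup.lift_apply_of]
      rw [(hf i j hij).eq]
      group
    have h1 : ∀ v : FreeGroup ι, PresentedGroup.toGroup hr (FreeGroup.lift a v) = FreeGroup.lift f v := by
      intro v
      have : (PresentedGroup.toGroup hr).comp (FreeGroup.lift a) = FreeGroup.lift f := by
        ext i
        simp [a]
      rw [← this]
      rfl
    rw [← h1, ← hl]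
    unfold ev
    rw [map_list_prod, List.map_map]
    congr 1
    apply List.map_congr_left
    intro p _
    simp [a]
  have hpos : 0 < l.length := by
    rcases Nat.eq_zero_or_pos l.length with h0 | h0
    · exfalso
      obtain ⟨G, _, f, hf, hne⟩ := hw
      apply hne
      rw [hval f hf, List.length_eq_zero_iff.mp h0]
      rfl
    · exact h0
  have he : ∀ i : Fin l.length, (l.get i).2 ≠ 0 := by
    intro i h0
    apply hmin (l.take i ++ l.drop (i + 1))
    · rw [List.length_append, List.length_take, List.length_drop]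
      have := i.2
      omega
    · rw [← hl]
      conv_rhs => rw [← List.take_append_drop i l, List.drop_eq_getElem_cons i.2]
      rw [ev_append, ev_append, ev_cons]
      have : (l[(i : ℕ)]).2 = 0 := h0
      rw [this, zpow_zero, one_mul]
  have hred : ∀ i j : Fin l.length, i < j → (l.get i).1 = (l.get j).1 →
      ∃ k, i < k ∧ k < j ∧ (l.get k).1 ≠ (l.get i).1 ∧ ¬ c (l.get k).1 (l.get i).1 := by
    intro i j hij hxy
    by_contra hcon
    push Not at hcon
    obtain ⟨l1, l2, l3, hsp, hmem⟩ := list_split l i j hij j.2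
    have hcom : Commute (a (l.get i).1) (ev a l2) := by
      apply ev_commute
      intro p hp
      obtain ⟨k, hk1, hk2, hk3, rfl⟩ := hmem p hp
      by_cases hz : (l[k]).1 = (l.get i).1
      · rw [hz]
      · exact (ha _ _ (hcon ⟨k, hk3⟩ hk1 hk2 hz)).symm
    apply hmin (l1 ++ (l2 ++ ((l.get i).1, (l.get i).2 + (l.get j).2) :: l3))
    · have := congrArg List.length hsp
      simp only [List.length_append, List.length_cons] at this ⊢
      omega
    · rw [← hl]
      conv_rhs => rw [hsp]
      rw [ev_append, ev_append, ev_cons, ev_append, ev_cons, ev_append, ev_cons]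
      have e1 : (l[(i : ℕ)]) = l.get i := rfl
      have e2 : (l[(j : ℕ)]) = l.get j := rfl
      rw [e1, e2, ← hxy]
      simp only [zpow_add]
      have h3 := (hcom.zpow_left (l.get i).2).eq
      rw [← mul_assoc (a (l.get i).1 ^ (l.get i).2) (ev a l2), h3]
      simp only [mul_assoc]
  obtain ⟨P, _, _, ρ, hρ, hne⟩ := mat_sep c hc l.length hpos (fun i => (l.get i).1) (fun i => (l.get i).2) he hred
  refine ⟨P, inferInstance, inferInstance, ρ, hρ, ?_⟩
  rw [hval0 ρ hρ]
  intro h1
  apply hne
  rw [← h1]
  unfold ev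
  congr 1
  conv_rhs => rw [← List.ofFn_get l, List.map_ofFn]
  rfl

end Pool.Agent.H25.GP
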