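import Pool.Agent.H25.GP.Gp
import Pool.Agent.H25.GP.Sep
import Pool.Agent.H25.FP.Pc

/-!
# H25/GP/Pc: graph products of groups with colourings have colourings
-/

set_option autoImplicit false

namespace Pool.Agent.H25.GP

open Pool.Agent.H25.WP Pool.Agent.H25.FP

universe u

variable {V : Type} {Γ : SimpleGraph V} {G : V → Type u} [∀ v, Group (G v)]

/-- labellings of the colours with commuting labels for adjacent vertices -/
def Lb (Γ : SimpleGraph V) (n : V → ℕ) (P : Type u) [Group P] : Type u :=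
  {ρ : ∀ v, Fin (n v) → P // ∀ v w, Γ.Adj v w → ∀ a b, Commute (ρ v a) (ρ w b)}

section
variable {n : V → ℕ} {κ : ∀ v, G v → Fin (n v)} {t : ∀ v, Fin (n v) → G v}

/-- all labels at once -/
def YY (Γ : SimpleGraph V) (κ : ∀ v, G v → Fin (n v)) (P : Type u) [Group P] (v : V) (a : G v) :
    Lb Γ n P → P := fun ρ => ρ.1 v (κ v a)

theorem YY_cm (P : Type u) [Group P] : Cm Γ (YY Γ κ P) := by
  intro v w h a b
  funext ρ
  exact (ρ.2 v w h (κ v a) (κ w b)).eq

/-- the colour -/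
noncomputable def col (κ : ∀ v, G v → Fin (n v)) (P : Type u) [Group P] (g : Gp Γ G) :
    (∀ v, Fin (n v)) × (Lb Γ n P → P) :=
  (fun v => κ v (gq g v), gu (YY_cm (κ := κ) P) g 1)

/-- the permutation of the colours given by `k` -/
def sg (κ : ∀ v, G v → Fin (n v)) (t : ∀ v, Fin (n v) → G v) (k : ∀ v, G v) (v : V) (c : Fin (n v)) : Fin (n v) :=
  κ v (k v * t v c)

/-- its action on the labellings -/
def la (P : Type u) [Group P] (s : ∀ v, Fin (n v) → Fin (n v)) (ρ : Lb Γ n P) : Lb Γ n P :=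
  ⟨fun v c => ρ.1 v (s v c), fun v w h a b => ρ.2 v w h _ _⟩

theorem YY_sg (P : Type u) [Group P] (hk : ∀ v c, κ v (t v c) = c) (k : ∀ v, G v) (v : V) (a : G v)
    (ha : a ∈ Set.range (t v)) (ρ : Lb Γ n P) :
    YY Γ κ P v (k v * a) ρ = YY Γ κ P v a (la P (sg κ t k) ρ) := by
  change ρ.1 v (κ v (k v * a)) = ρ.1 v (κ v (k v * t v (κ v a)))
  rw [rt_eq (hk v) ha]

theorem transfer (P : Type u) [Group P] (hk : ∀ v c, κ v (t v c) = c) (h1 : ∀ v, 1 ∈ Set.range (t v))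
    (k : ∀ v, G v) {g : Gp Γ G} (hg : Good (fun v => Set.range (t v)) g) (ρ : Lb Γ n P) :
    gu (YY_cm (κ := κ) P) g k ρ = gu (YY_cm (κ := κ) P) g 1 (la P (sg κ t k) ρ) := by
  induction hg with
  | one =>
    rw [gu_one, gu_one]
    rfl
  | mul g v a hg h ih =>
    have hm := hg.mem h1
    rw [gu_mul, gu_mul1, gu_of, gu_of]
    change gu (YY_cm (κ := κ) P) g k ρ * ((YY Γ κ P v (k v * gq g v) ρ)⁻¹ * YY Γ κ P v (k v * gq g v * a) ρ) =
      gu (YY_cm (κ := κ) P) g 1 (la P (sg κ t k) ρ) * ((YY Γ κ P v (gq g v) (la P (sg κ t k) ρ))⁻¹ *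
        YY Γ κ P v (gq g v * a) (la P (sg κ t k) ρ))
    rw [ih, mul_assoc (k v), YY_sg P hk k v _ (hm v), YY_sg P hk k v _ h]

theorem injL (P : Type u) [Group P] (hk : ∀ v c, κ v (t v c) = c) (h1 : ∀ v, 1 ∈ Set.range (t v))
    (hL : ∀ v g, Function.Bijective fun c => κ v (g * t v c)) (g : Gp Γ G) {x y : Gp Γ G}
    (hx : Good (fun v => Set.range (t v)) x) (hy : Good (fun v => Set.range (t v)) y)
    (h : col κ P (g * x) = col κ P (g * y)) : col κ P x = col κ P y := by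
  have hs : ∀ v, Function.Bijective (sg κ t (gq g) v) := fun v => hL v (gq g v)
  have h2 : (fun v => κ v (gq (g * x) v)) = fun v => κ v (gq (g * y) v) := congrArg Prod.fst h
  have h3 : gu (YY_cm (κ := κ) P) (g * x) 1 = gu (YY_cm (κ := κ) P) (g * y) 1 := congrArg Prod.snd h
  have hmx := hx.mem h1
  have hmy := hy.mem h1
  rw [gu_mul1, gu_mul1] at h3
  have h4 := mul_left_cancel h3
  refine Prod.ext ?_ ?_
  · funext v
    have h5 := congrFun h2 v
    simp only [map_mul, Pi.mul_apply] at h5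
    apply (hs v).1
    change κ v (gq g v * t v (κ v (gq x v))) = κ v (gq g v * t v (κ v (gq y v)))
    rw [rt_eq (hk v) (hmx v), rt_eq (hk v) (hmy v)]
    exact h5
  · funext ρ
    have h6 : la P (sg κ t (gq g)) (la P (fun v => (Equiv.ofBijective _ (hs v)).symm) ρ) = ρ := by
      apply Subtype.ext
      funext v c
      change ρ.1 v ((Equiv.ofBijective _ (hs v)).symm (Equiv.ofBijective _ (hs v) c)) = ρ.1 v c
      rw [Equiv.symm_apply_apply]
    have h7 := transfer P hk h1 (gq g) hx (la P (fun v => (Equiv.ofBijective _ (hs v)).symm) ρ)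
    have h8 := transfer P hk h1 (gq g) hy (la P (fun v => (Equiv.ofBijective _ (hs v)).symm) ρ)
    rw [h6] at h7 h8
    change gu (YY_cm (κ := κ) P) x 1 ρ = gu (YY_cm (κ := κ) P) y 1 ρ
    rw [← h7, ← h8, h4]

theorem injR (P : Type u) [Group P] (h1 : ∀ v, 1 ∈ Set.range (t v))
    (hR : ∀ v g, Function.Injective fun c => κ v (t v c * g)) (g : Gp Γ G) {x y : Gp Γ G}
    (hx : Good (fun v => Set.range (t v)) x) (hy : Good (fun v => Set.range (t v)) y)
    (h : col κ P (x * g) = col κ P (y * g)) : col κ P x = col κ P y := by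
  have h2 : (fun v => κ v (gq (x * g) v)) = fun v => κ v (gq (y * g) v) := congrArg Prod.fst h
  have h3 : gu (YY_cm (κ := κ) P) (x * g) 1 = gu (YY_cm (κ := κ) P) (y * g) 1 := congrArg Prod.snd h
  have hmx := hx.mem h1
  have hmy := hy.mem h1
  have h4 : gq x = gq y := by
    funext v
    have h5 := congrFun h2 v
    simp only [map_mul, Pi.mul_apply] at h5
    obtain ⟨c, hc⟩ := hmx v
    obtain ⟨c', hc'⟩ := hmy v
    rw [← hc, ← hc'] at h5 ⊢
    rw [hR v _ h5]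
  rw [gu_mul1, gu_mul1, h4] at h3
  unfold col
  rw [h4, mul_right_cancel h3]

theorem reach (P : Type u) [Group P] (hk : ∀ v c, κ v (t v c) = c) (g : Gp Γ G) : ∀ h : Gp Γ G,
    (∃ x, Good (fun v => Set.range (t v)) x ∧ col κ P x = col κ P h) →
    ∃ x, Good (fun v => Set.range (t v)) x ∧ col κ P x = col κ P (h * g) := by
  classical
  refine gind (p := fun g => ∀ h : Gp Γ G,
    (∃ x, Good (fun v => Set.range (t v)) x ∧ col κ P x = col κ P h) →
    ∃ x, Good (fun v => Set.range (t v)) x ∧ col κ P x = col κ P (h * g)) g ?_ ?_ ?_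
  · intro h hh
    rw [mul_one]
    exact hh
  · rintro v a h ⟨x, hx, hc⟩
    have h2 : (fun v => κ v (gq x v)) = fun v => κ v (gq h v) := congrArg Prod.fst hc
    have h3 : gu (YY_cm (κ := κ) P) x 1 = gu (YY_cm (κ := κ) P) h 1 := congrArg Prod.snd hc
    have h4 : κ v (gq x v * ((gq x v)⁻¹ * t v (κ v (gq h v * a)))) = κ v (gq h v * a) := by
      rw [mul_inv_cancel_left, hk]
    refine ⟨x * gof Γ v ((gq x v)⁻¹ * t v (κ v (gq h v * a))), Good.mul _ _ _ hx ?_, ?_⟩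
    · rw [mul_inv_cancel_left]
      exact ⟨_, rfl⟩
    · refine Prod.ext ?_ ?_
      · funext w
        change κ w (gq (x * gof Γ v _) w) = κ w (gq (h * gof Γ v a) w)
        by_cases hw : w = v
        · subst hw
          rw [gq_mul_of_same, gq_mul_of_same]
          exact h4
        · rw [gq_mul_of_ne _ _ _ hw, gq_mul_of_ne _ _ _ hw]
          exact congrFun h2 w
      · change gu (YY_cm (κ := κ) P) (x * gof Γ v _) 1 = gu (YY_cm (κ := κ) P) (h * gof Γ v a) 1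
        rw [gu_mul1, gu_mul1, gu_of, gu_of, h3]
        have h5 : YY Γ κ P v (gq x v) = YY Γ κ P v (gq h v) := by
          funext ρ
          change ρ.1 v (κ v (gq x v)) = ρ.1 v (κ v (gq h v))
          rw [congrFun h2 v]
        have h6 : YY Γ κ P v (gq x v * ((gq x v)⁻¹ * t v (κ v (gq h v * a)))) = YY Γ κ P v (gq h v * a) := by
          funext ρ
          change ρ.1 v (κ v _) = ρ.1 v (κ v _)
          rw [h4]
        rw [h5, h6]
  · intro x y hx hy h hh
    rw [← mul_assoc]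
    exact hy _ (hx _ hh)

/-- labels from a function on the colours -/
theorem lab_cm {R : Type u} [Group R] (κ : ∀ v, G v → Fin (n v)) (ρ : (Σ v, Fin (n v)) → R)
    (hρ : ∀ i j : Σ v, Fin (n v), Γ.Adj i.1 j.1 → Commute (ρ i) (ρ j)) :
    Cm Γ (fun v (a : G v) => ρ ⟨v, κ v a⟩) := fun v w h a b => hρ ⟨v, κ v a⟩ ⟨w, κ w b⟩ h

/-- the word of an element -/
theorem word (κ : ∀ v, G v → Fin (n v)) (g : Gp Γ G) : ∀ k : ∀ v, G v, ∃ w : FreeGroup (Σ v, Fin (n v)),
    ∀ (R : Type u) [Group R] (ρ : (Σ v, Fin (n v)) → R)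
      (hρ : ∀ i j : Σ v, Fin (n v), Γ.Adj i.1 j.1 → Commute (ρ i) (ρ j)),
      gu (lab_cm κ ρ hρ) g k = FreeGroup.lift ρ w := by
  refine gind (p := fun g => ∀ k : ∀ v, G v, ∃ w : FreeGroup (Σ v, Fin (n v)),
    ∀ (R : Type u) [Group R] (ρ : (Σ v, Fin (n v)) → R)
      (hρ : ∀ i j : Σ v, Fin (n v), Γ.Adj i.1 j.1 → Commute (ρ i) (ρ j)),
      gu (lab_cm κ ρ hρ) g k = FreeGroup.lift ρ w) g ?_ ?_ ?_
  · intro k
    refine ⟨1, fun R _ ρ hρ => ?_⟩
    rw [gu_one, map_one]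
  · intro v a k
    refine ⟨(FreeGroup.of ⟨v, κ v (k v)⟩)⁻¹ * FreeGroup.of ⟨v, κ v (k v * a)⟩, fun R _ ρ hρ => ?_⟩
    rw [gu_of, map_mul, map_inv, FreeGroup.lift_apply_of, FreeGroup.lift_apply_of]
  · intro x y hx hy k
    obtain ⟨w1, h1⟩ := hx k
    obtain ⟨w2, h2⟩ := hy (k * gq x)
    refine ⟨w1 * w2, fun R _ ρ hρ => ?_⟩
    rw [gu_mul, map_mul, h1 R ρ hρ, h2 R ρ hρ]

theorem dec_cm (t : ∀ v, Fin (n v) → G v) (i j : Σ v, Fin (n v)) (h : Γ.Adj i.1 j.1) :
    Commute (gof Γ i.1 (t i.1 i.2)) (gof Γ j.1 (t j.1 j.2)) := gof_comm h _ _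

/-- a good element is its own holonomy -/
theorem decode (hk : ∀ v c, κ v (t v c) = c) (h1 : ∀ v, 1 ∈ Set.range (t v)) {g : Gp Γ G}
    (hg : Good (fun v => Set.range (t v)) g) :
    gu (lab_cm κ (fun i => gof Γ i.1 (t i.1 i.2)) (dec_cm (Γ := Γ) t)) g 1 = g := by
  induction hg with
  | one => exact gu_one _ _
  | mul g v a hg h ih =>
    have hm := hg.mem h1
    rw [gu_mul1, gu_of, ih]
    change g * ((gof Γ v (t v (κ v (gq g v))))⁻¹ * gof Γ v (t v (κ v (gq g v * a)))) = g * gof Γ v a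
    rw [rt_eq (hk v) (hm v), rt_eq (hk v) h, map_mul]
    group

end

/-- graph products over finite graphs of groups with colourings have colourings -/
theorem gp_pc {V : Type} [Finite V] (Γ : SimpleGraph V) (G : V → Type u) [∀ v, Group (G v)] (hG : ∀ v, PC (G v)) :
    PC (Gp Γ G) := by
  classical
  refine pc_mk (fun F => ?_)
  obtain ⟨E, hE⟩ := good_fin (F.image fun x => x⁻¹)
  have hd := fun v => data (hG v) (insert 1 (E v))
  choose n κ t h0 hk hL hR using hd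
  have h1 : ∀ v, (1 : G v) ∈ Set.range (t v) := fun v => h0 v (by simp)
  have hGd : ∀ f ∈ F.image (fun x => x⁻¹), Good (fun v => Set.range (t v)) f := by
    refine hE _ (fun v x hx => h0 v ?_)
    rw [Finset.mem_coe] at hx ⊢
    exact Finset.mem_insert_of_mem hx
  choose W hW using fun g : Gp Γ G => word (Γ := Γ) κ g 1
  let I : Type u := {p : Gp Γ G × Gp Γ G // p ∈ (F.image (fun x => x⁻¹)) ×ˢ (F.image (fun x => x⁻¹)) ∧ p.1 ≠ p.2}
  have hsep : ∀ p : I, ∃ (P : Type) (_ : Group P) (_ : Finite P) (ρ : (Σ v, Fin (n v)) → P),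
      (∀ i j : Σ v, Fin (n v), Γ.Adj i.1 j.1 → Commute (ρ i) (ρ j)) ∧
        FreeGroup.lift ρ ((W p.1.1)⁻¹ * W p.1.2) ≠ 1 := by
    rintro ⟨⟨x, y⟩, hp, hne⟩
    refine raag_sep.{u} (fun i j : Σ v, Fin (n v) => Γ.Adj i.1 j.1) (fun i j h => h.symm) _
      ⟨Gp Γ G, inferInstance, fun i => gof Γ i.1 (t i.1 i.2), dec_cm (Γ := Γ) t, ?_⟩
    rw [Finset.mem_product] at hp
    rw [map_mul, map_inv]
    have e1 := hW x (Gp Γ G) (fun i => gof Γ i.1 (t i.1 i.2)) (dec_cm (Γ := Γ) t)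
    have e2 := hW y (Gp Γ G) (fun i => gof Γ i.1 (t i.1 i.2)) (dec_cm (Γ := Γ) t)
    rw [decode hk h1 (hGd x hp.1)] at e1
    rw [decode hk h1 (hGd y hp.2)] at e2
    change (FreeGroup.lift _ (W x))⁻¹ * FreeGroup.lift _ (W y) ≠ 1
    rw [← e1, ← e2]
    intro h
    exact hne (inv_mul_eq_one.mp h)
  choose P0 i0 j0 r0 hr0 hw0 using hsep
  let P : Type u := ∀ p : I, P0 p
  have hfinI : Finite I := by
    have : Finite {p : Gp Γ G × Gp Γ G // p ∈ (F.image (fun x => x⁻¹)) ×ˢ (F.image (fun x => x⁻¹))} := inferInstance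
    exact Finite.of_injective (fun p : I => (⟨p.1, p.2.1⟩ : {p : Gp Γ G × Gp Γ G //
      p ∈ (F.image (fun x => x⁻¹)) ×ˢ (F.image (fun x => x⁻¹))})) (fun p q h => Subtype.ext (congrArg (fun z => z.1) h))
  let iP : Group P := Pi.group
  have hfinP : Finite P := Pi.finite
  have inj : ∀ f ∈ F.image (fun x => x⁻¹), ∀ f' ∈ F.image (fun x => x⁻¹),
      col κ P f = col κ P f' → f = f' := by
    intro f hf f' hf' h
    by_contra hne
    have h3 : gu (YY_cm (κ := κ) P) f 1 = gu (YY_cm (κ := κ) P) f' 1 := congrArg Prod.snd h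
    let p : I := ⟨(f, f'), Finset.mem_product.mpr ⟨hf, hf'⟩, hne⟩
    let ρ : (Σ v, Fin (n v)) → P := fun i q => r0 q i
    have hρ : ∀ i j : Σ v, Fin (n v), Γ.Adj i.1 j.1 → Commute (ρ i) (ρ j) := by
      intro i j hij
      funext q
      exact (hr0 q i j hij).eq
    have ev : ∀ g : Gp Γ G, gu (YY_cm (κ := κ) P) g 1 ⟨fun v c => ρ ⟨v, c⟩, fun v w hvw a b => hρ ⟨v, a⟩ ⟨w, b⟩ hvw⟩ =
        gu (lab_cm κ ρ hρ) g 1 := by
      intro g
      have h4 : ∀ k, gu (YY_cm (κ := κ) P) g k ⟨fun v c => ρ ⟨v, c⟩, fun v w hvw a b => hρ ⟨v, a⟩ ⟨w, b⟩ hvw⟩ =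
          gu (lab_cm κ ρ hρ) g k := by
        refine gind (p := fun g => ∀ k, gu (YY_cm (κ := κ) P) g k
          ⟨fun v c => ρ ⟨v, c⟩, fun v w hvw a b => hρ ⟨v, a⟩ ⟨w, b⟩ hvw⟩ = gu (lab_cm κ ρ hρ) g k) g ?_ ?_ ?_
        · intro k
          rw [gu_one, gu_one]
          rfl
        · intro v a k
          rw [gu_of, gu_of]
          rfl
        · intro x y hx hy k
          rw [gu_mul, gu_mul, ← hx, ← hy]
          rfl
      exact h4 1
    have h4 : FreeGroup.lift ρ (W f) = FreeGroup.lift ρ (W f') := by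
      rw [← hW f P ρ hρ, ← hW f' P ρ hρ, ← ev, ← ev, h3]
    have h5 : ∀ w : FreeGroup (Σ v, Fin (n v)), FreeGroup.lift ρ w p = FreeGroup.lift (r0 p) w := by
      intro w
      have h6 : (Pi.evalMonoidHom P0 p).comp (FreeGroup.lift ρ) = FreeGroup.lift (r0 p) := by
        apply FreeGroup.ext_hom
        intro i
        simp [ρ]
      exact DFunLike.congr_fun h6 w
    apply hw0 p
    change FreeGroup.lift (r0 p) ((W f)⁻¹ * W f') = 1
    rw [map_mul, map_inv, ← h5, ← h5, h4, inv_mul_cancel]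
  have hch : ∀ o : Set.range (col (Γ := Γ) κ P), ∃ x, Good (fun v => Set.range (t v)) x ∧
      col κ P x = o ∧ ∀ f ∈ F.image (fun x => x⁻¹), col κ P f = o → x = f := by
    rintro ⟨_, g, rfl⟩
    by_cases hc : ∃ f ∈ F.image (fun x => x⁻¹), col κ P f = col κ P g
    · obtain ⟨f, hf, hfc⟩ := hc
      exact ⟨f, hGd f hf, hfc, fun f' hf' h' => inj f hf f' hf' (hfc.trans h'.symm)⟩
    · obtain ⟨x, hx, hxc⟩ := reach (Γ := Γ) P hk g 1 ⟨1, Good.one, rfl⟩
      rw [one_mul] at hxc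
      exact ⟨x, hx, hxc, fun f' hf' h' => absurd ⟨f', hf', h'⟩ hc⟩
  choose x hx1 hx2 hx3 using hch
  have hfinL : Finite (Lb Γ n P) := Subtype.finite
  have hfin : Finite (Set.range (col (Γ := Γ) κ P)) := inferInstance
  refine ⟨Set.range (col (Γ := Γ) κ P), hfin, fun o => (x o)⁻¹, Set.range (col (Γ := Γ) κ P),
    fun g => ⟨col κ P g, g, rfl⟩, ?_, ?_⟩
  · intro f hf
    have h2 : f⁻¹ ∈ F.image (fun x => x⁻¹) := Finset.mem_image_of_mem _ hf
    refine ⟨⟨col κ P f⁻¹, f⁻¹, rfl⟩, ?_⟩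
    change (x _)⁻¹ = f
    rw [hx3 ⟨col κ P f⁻¹, f⁻¹, rfl⟩ f⁻¹ h2 rfl, inv_inv]
  · intro g
    constructor
    · refine Finite.injective_iff_bijective.mp ?_
      intro o o' h
      have h2 : col κ P (g * (x o)⁻¹⁻¹) = col κ P (g * (x o')⁻¹⁻¹) := congrArg Subtype.val h
      rw [inv_inv, inv_inv] at h2
      have h3 := injL P hk h1 hL g (hx1 o) (hx1 o') h2
      rw [hx2, hx2] at h3
      exact Subtype.ext h3
    · refine Finite.injective_iff_bijective.mp ?_
      intro o o' h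
      have h2 : col κ P ((x o)⁻¹⁻¹ * g) = col κ P ((x o')⁻¹⁻¹ * g) := congrArg Subtype.val h
      rw [inv_inv, inv_inv] at h2
      have h3 := injR P h1 hR g (hx1 o) (hx1 o') h2
      rw [hx2, hx2] at h3
      exact Subtype.ext h3

end Pool.Agent.H25.GP
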